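import Pool.Agent.V11276.PC2

/-!
# MP_26251e_nt: `ν_p(d_m(p²n) - d_m(n))` for colored `p`-ary partitions, Q1

Q1 fails at `p = 16843`, `m = 1`, for every `n` prime to `p` (here `p` is a Wolstenholme prime, and
`p^4` divides `d_1(p²n) - d_1(n)` for every `n`, while the formula predicts `ν_p = 3`).
-/

namespace Pool.Agent.Results.MP_26251e_nt.QuestionOneFails

open PowerSeries

/-- The infinite product `∏_{i ≥ 0} (1 - x^(p^i))` over `ℤ`: its coefficient of `x^n` is read off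
from the partial product over `i ≤ n` (the remaining factors are `≡ 1` modulo `x^(n+1)`). -/
noncomputable def F (p : ℕ) : ℤ⟦X⟧ :=
  PowerSeries.mk fun n => coeff n (∏ i ∈ Finset.range (n + 1), (1 - X ^ (p ^ i)) : ℤ⟦X⟧)

/-- `d_m(n)`: the coefficient of `x^n` in the inverse of
`(1 - x)^m * (∏_{i ≥ 0} (1 - x^(p^i)))^((p-1)m)`. -/
noncomputable def d (p m n : ℕ) : ℤ :=
  coeff n (invOfUnit ((1 - X) ^ m * F p ^ ((p - 1) * m)) 1)

/-- The statement of Q1 (the valuation of `0` is `⊤`). -/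
def Q1 : Prop :=
  ∀ p : ℕ, p.Prime → 3 ≤ p → ∀ m : ℕ, 1 ≤ m → m % p ≠ p - 1 → ∀ n : ℕ, 1 ≤ n →
    emultiplicity (p : ℤ) (d p m (p ^ 2 * n) - d p m n) =
      ((padicValNat p n + 2 * padicValNat p m + 3 - (if p = 3 then 1 else 0) : ℕ) : ℕ∞)

theorem d_eq (p m n : ℕ) : d p m n = coeff n (Pool.Agent.V11276.PC.G p m) := rfl

/-- `p^4` divides `d_1(p²n) - d_1(n)` for `p = 16843`. -/
theorem wol (n : ℕ) : (16843 : ℤ) ^ 4 ∣ d 16843 1 (16843 ^ 2 * n) - d 16843 1 n := by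
  rw [d_eq, d_eq]
  exact Pool.Agent.V11276.PC.wol_final n

/-- Q1 has a negative answer; explicitly, `p^4` always divides `d_1(p²n) - d_1(n)` for
`p = 16843`. -/
theorem result : ¬ Q1 ∧ ∀ n : ℕ, (16843 : ℤ) ^ 4 ∣ d 16843 1 (16843 ^ 2 * n) - d 16843 1 n := by
  refine ⟨fun h => ?_, wol⟩
  have h1 := h 16843 (by norm_num) (by norm_num) 1 le_rfl (by norm_num) 1 le_rfl
  have h2 := le_emultiplicity_of_pow_dvd (wol 1)
  rw [padicValNat_one_right, if_neg (by norm_num)] at h1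
  have h3 : ((4 : ℕ) : ℕ∞) ≤ ((0 + 2 * 0 + 3 - 0 : ℕ) : ℕ∞) := by
    rw [← h1]; exact h2
  have h4 : 4 ≤ 0 + 2 * 0 + 3 - 0 := by exact_mod_cast h3
  omega

end Pool.Agent.Results.MP_26251e_nt.QuestionOneFails
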