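import Pool.Agent.V11276.PC2
import Pool.Agent.V11276.PC3

/-!
# MP_26251e_nt: `ν_p(d_m(p²n) - d_m(n))` for colored `p`-ary partitions, Q2

Q2 fails at `p = 3` for every `m ≡ 8 mod 9`: then `ν_3(d_m(9n) - d_m(n)) ≥ ν_3(n) + 4` for all
`n ≥ 1`, so equality with `ν_3(n) + 3` never holds.
-/

namespace Pool.Agent.Results.MP_26251e_nt.QuestionTwoFails

open PowerSeries

/-- The infinite product `∏_{i ≥ 0} (1 - x^(p^i))` over `ℤ`: its coefficient of `x^n` is read off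
from the partial product over `i ≤ n` (the remaining factors are `≡ 1` modulo `x^(n+1)`). -/
noncomputable def F (p : ℕ) : ℤ⟦X⟧ :=
  PowerSeries.mk fun n => coeff n (∏ i ∈ Finset.range (n + 1), (1 - X ^ (p ^ i)) : ℤ⟦X⟧)

/-- `d_m(n)`: the coefficient of `x^n` in the inverse of
`(1 - x)^m * (∏_{i ≥ 0} (1 - x^(p^i)))^((p-1)m)`. -/
noncomputable def d (p m n : ℕ) : ℤ :=
  coeff n (invOfUnit ((1 - X) ^ m * F p ^ ((p - 1) * m)) 1)

/-- The statement of Q2. -/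
def Q2 : Prop :=
  ∀ p : ℕ, p.Prime → 3 ≤ p → ∀ m : ℕ, 1 ≤ m → m % p = p - 1 →
    (∀ n : ℕ, 1 ≤ n → ((padicValNat p n + 4 - (if p = 3 then 1 else 0) : ℕ) : ℕ∞) ≤
      emultiplicity (p : ℤ) (d p m (p ^ 2 * n) - d p m n)) ∧
    {n : ℕ | 1 ≤ n ∧ emultiplicity (p : ℤ) (d p m (p ^ 2 * n) - d p m n) =
      ((padicValNat p n + 4 - (if p = 3 then 1 else 0) : ℕ) : ℕ∞)}.Infinite

theorem d_eq (p m n : ℕ) : d p m n = coeff n (Pool.Agent.V11276.PC.G p m) := rfl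

/-- the lower bound for `p = 3`, `m ≡ 8 mod 9` -/
theorem three (m : ℕ) (hm : m % 9 = 8) (n : ℕ) :
    (3 : ℤ) ^ (padicValNat 3 n + 4) ∣ d 3 m (3 ^ 2 * n) - d 3 m n := by
  obtain ⟨t, ht⟩ := pow_padicValNat_dvd (p := 3) (n := n)
  have h := Pool.Agent.V11276.PC.Three.bound8 (m / 9) n (padicValNat 3 n) t ht
  have e : 9 * (m / 9) + 8 = m := by omega
  rw [e] at h
  rw [d_eq, d_eq]
  exact h

/-- Q2 has a negative answer; explicitly, for `p = 3`, `m ≡ 8 mod 9` the exponent of `3` in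
`d_m(9n) - d_m(n)` is at least `ν_3(n) + 4` for every `n ≥ 1`. -/
theorem result : ¬ Q2 ∧ ∀ m : ℕ, m % 9 = 8 → ∀ n : ℕ,
    (3 : ℤ) ^ (padicValNat 3 n + 4) ∣ d 3 m (3 ^ 2 * n) - d 3 m n := by
  refine ⟨fun h => ?_, three⟩
  have h1 := (h 3 (by norm_num) le_rfl 8 (by norm_num) (by norm_num)).2
  obtain ⟨n, hn⟩ := h1.nonempty
  obtain ⟨hn1, hn⟩ := hn
  have h2 := le_emultiplicity_of_pow_dvd (three 8 (by norm_num) n)
  have h3 : ((padicValNat 3 n + 4 : ℕ) : ℕ∞) ≤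
      ((padicValNat 3 n + 4 - (if 3 = 3 then 1 else 0) : ℕ) : ℕ∞) := by
    rw [← hn]; exact h2
  rw [if_pos rfl] at h3
  have h4 : padicValNat 3 n + 4 ≤ padicValNat 3 n + 4 - 1 := by exact_mod_cast h3
  omega

end Pool.Agent.Results.MP_26251e_nt.QuestionTwoFails
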